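import Mathlib
import Pool.Agent.H1.BomB

open Pool.Agent.H1.Bom Filter

theorem Pool.Agent.Results.MP_6d4084_an.Yes.result :
    limsup (fun n : ℕ => S n ^ (1 / (n : ℝ))) atTop = K ∧
    Tendsto (fun n : ℕ => S n ^ (1 / (n : ℝ))) atTop (nhds K) ∧
    (∀ n : ℕ, 1 ≤ n → K ^ n / (n + 1) ≤ S n ∧ S n ≤ K ^ n) ∧
    ∀ n : ℕ, BddAbove {r : ℝ | ∃ p q : Polynomial ℂ,
      p.Monic ∧ p.natDegree = n ∧ q.Monic ∧ q ∣ p ∧ r = dn q / bn p} :=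
  ⟨tend.limsup_eq, tend, fun n hn => ⟨le_S hn, S_le n⟩, fun _ => ⟨_, fun _ h => mem_le h⟩⟩
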